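import Pool.Agent.H987.Z.StD
import Pool.Graph.R_pool_sql_team_seeded_1acbe0a2.Y662.TR.Fre

/-! Help-board subtask 596 (Z-E3): the lattice Green function in dimension at least three. -/

set_option autoImplicit false
set_option linter.unusedSectionVars false

open scoped BigOperators InnerProductSpace Topology
open Filter MeasureTheory

namespace Pool.Agent.H383.Z987

open Pool.Agent.H987.Z
open Pool.Agent.Y662.TR (LL Cf Mw dv hu ll_ext sub_coord smul_coord dv_self dv_ne Cf_apply gg GG
  gg_hol gg_bd gg_low GG_im_lower cG clp root_eq)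
open Pool.Agent.TH369.AN (Rz rz_eq rz_uniq)

section

variable {d : ℕ}

/-- the lattice, written multiplicatively -/
abbrev HH (d : ℕ) : Type := Multiplicative (Fin d → ℤ)

theorem ra_mul {G : Type} [Group G] : RA (G := G) (fun s => Equiv.mulRight s) where
  one := fun x => mul_one x
  mul := fun s t x => (mul_assoc x s t).symm

open Classical in
theorem hs_one {G : Type} (f : G → ℂ) (a : G) :
    HasSum (fun s => ((if s = a then (1 : ℝ) else 0 : ℝ) : ℂ) * f s) (f a) := by
  have h := hasSum_single (f := fun s => ((if s = a then (1 : ℝ) else 0 : ℝ) : ℂ) * f s) a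
    (fun s hs => by simp [hs])
  simpa using h

theorem hs_congr {α : Type} {f g : α → ℂ} {a : ℂ} (h : HasSum f a)
    (e : ∀ x, g x = f x) : HasSum g a := by
  rwa [show g = f from funext e]

theorem b0_hs (u : HH d → ℂ) (x : HH d) :
    HasSum (fun s => ((b0 (MonoidHom.id (HH d)) s : ℝ) : ℂ) * u (x * s))
      ((2 * d : ℂ) * u x - ∑ i : Fin d, (u (x * Multiplicative.ofAdd (Pi.single i 1)) +
        u (x * Multiplicative.ofAdd (Pi.single i (-1))))) := by
  have h1 := (hs_one (fun s => u (x * s)) (1 : HH d)).mul_left (2 * d : ℂ)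
  have h2 := hasSum_sum (s := (Finset.univ : Finset (Fin d))) (fun i _ =>
    (hs_one (fun s => u (x * s)) (Multiplicative.ofAdd (Pi.single i (1 : ℤ)) : HH d)).add
    (hs_one (fun s => u (x * s)) (Multiplicative.ofAdd (Pi.single i (-1 : ℤ)) : HH d)))
  have h3 := h1.sub h2
  rw [mul_one] at h3
  refine hs_congr h3 fun s => ?_
  unfold b0
  push_cast
  rw [sub_mul, Finset.sum_mul]
  congr 1
  · exact mul_assoc _ _ _
  · refine Finset.sum_congr rfl fun i _ => ?_
    exact add_mul _ _ _

open Classical in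
theorem sm_ite {G : Type} (a : G) : Summable fun s : G => if s = a then (1 : ℝ) else 0 :=
  (hasSum_ite_eq a 1).summable

open Classical in
theorem ite_iff {p q : Prop} (h : p ↔ q) : (if p then (1 : ℝ) else 0) = if q then 1 else 0 := by
  have := propext h
  subst this
  rfl

theorem b0_sy : Sy (b0 (MonoidHom.id (HH d))) where
  sm := by
    refine Summable.abs ?_
    unfold b0
    refine Summable.sub ((sm_ite 1).mul_left _) ?_
    exact summable_sum fun i _ => (sm_ite _).add (sm_ite _)
  sy := by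
    intro s
    unfold b0
    have h1 : s⁻¹ = 1 ↔ s = 1 := inv_eq_one
    have h2 : ∀ i : Fin d, s⁻¹ = Multiplicative.ofAdd (Pi.single i (1 : ℤ)) ↔
        s = Multiplicative.ofAdd (Pi.single i (-1 : ℤ)) := by
      intro i
      rw [inv_eq_iff_eq_inv, ← ofAdd_neg, ← Pi.single_neg]
    have h3 : ∀ i : Fin d, s⁻¹ = Multiplicative.ofAdd (Pi.single i (-1 : ℤ)) ↔
        s = Multiplicative.ofAdd (Pi.single i (1 : ℤ)) := by
      intro i
      rw [inv_eq_iff_eq_inv, ← ofAdd_neg, ← Pi.single_neg, neg_neg]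
    refine congrArg₂ (· - ·) (congrArg _ (ite_iff h1)) (Finset.sum_congr rfl fun i _ => ?_)
    exact (congrArg₂ (· + ·) (ite_iff (h2 i)) (ite_iff (h3 i))).trans (add_comm _ _)

theorem clp0 (B : ℝ) : clp B 0 = 0 := by
  unfold clp
  rw [min_eq_right (abs_nonneg B), max_eq_right (by simp)]

/-- the identification with the library function -/
theorem gz_eq (hc : S_conv) (z : ℂ) (hz : z.im ≠ 0) : gZ d z = gg d 0 z := by
  obtain ⟨k1, -, k3, -⟩ := hc (HH d) (HH d) (fun s => Equiv.mulRight s) ra_mul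
    (b0 (MonoidHom.id (HH d))) (b0 (MonoidHom.id (HH d))) b0_sy b0_sy
  have hf : Function.Injective
      (fun x : HH d => (([], Multiplicative.toAdd x) : Pool.Agent.Y662.TR.Vt d)) := by
    intro x y h
    simp only [Prod.mk.injEq, true_and] at h
    exact Multiplicative.toAdd.injective h
  obtain ⟨φ, hφ⟩ : ∃ φ : LL (HH d), ∀ x, φ x =
      GG (d := d) 0 (fun _ => 0) (fun _ => 0) z ([], Multiplicative.toAdd x) ([], 0) :=
    ⟨Cf _ hf (Rz (Pool.Agent.Y662.TR.TT 0 (fun _ => 0) (fun _ => 0)) z (dv ([], 0))),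
      fun x => rfl⟩
  have h1 : φ = Rz (KT (b0 (MonoidHom.id (HH d)))) z (dv 1) := by
    apply rz_uniq (KT (b0 (MonoidHom.id (HH d)))) k3.sa z hz
    apply ll_ext
    intro x
    rw [sub_coord, smul_coord]
    have h2 : KT (b0 (MonoidHom.id (HH d))) φ x = (2 * d : ℂ) * φ x -
        ∑ i : Fin d, (φ (x * Multiplicative.ofAdd (Pi.single i 1)) +
        φ (x * Multiplicative.ofAdd (Pi.single i (-1)))) :=
      (k1 φ x).2.trans (b0_hs (fun y => φ y) x).tsum_eq
    rw [h2]
    simp only [hφ]
    have h3 := root_eq (d := d) 0 (fun _ => 0) (fun _ => 0) z hz 0 (Multiplicative.toAdd x)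
    rw [clp0] at h3
    have h4 : dv (1 : HH d) x = if Multiplicative.toAdd x = 0 then (1 : ℂ) else 0 := by
      by_cases hx : Multiplicative.toAdd x = 0
      · have : x = 1 := Multiplicative.toAdd.injective hx
        rw [if_pos hx, this, dv_self]
      · rw [if_neg hx, dv_ne (fun h => hx (by rw [h]; rfl))]
    rw [h4, ← h3]
    have h5 : ∀ i : Fin d, Multiplicative.toAdd (x * Multiplicative.ofAdd (Pi.single i (1 : ℤ))) =
        Multiplicative.toAdd x + Pi.single i 1 := fun i => rfl
    have h6 : ∀ i : Fin d, Multiplicative.toAdd (x * Multiplicative.ofAdd (Pi.single i (-1 : ℤ))) =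
        Multiplicative.toAdd x - Pi.single i 1 := fun i => by
      rw [toAdd_mul, toAdd_ofAdd, Pi.single_neg, sub_eq_add_neg]
    simp only [h5, h6]
    push_cast
    ring
  show Rz (KT (b0 (MonoidHom.id (HH d)))) z (dv 1) 1 = _
  rw [← h1, hφ]
  rfl

end

theorem free3 (hc : S_conv) (_hg : S_green) : S_free3 := by
  intro d hd κ hκ hκ1
  obtain ⟨m, hm, hlow⟩ := gg_low hd κ hκ hκ1
  have hd0 : (0 : ℝ) ≤ d := Nat.cast_nonneg d
  refine ⟨min m (1 / (8 * d + 2) ^ 2), Pool.Agent.TH794.QD.CH d + 1, ?_, ?_, ?_, ?_⟩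
  · exact lt_min hm (by positivity)
  · intro z h1 h2 h3 h4
    rw [gz_eq hc z h3.ne']
    by_cases h5 : z.im ≤ 1
    · exact (min_le_left _ _).trans (hlow 0 z h3 h5 h1 h2)
    · push Not at h5
      refine (min_le_right _ _).trans ?_
      refine le_trans ?_ (GG_im_lower 0 (fun _ => 0) (fun _ => 0) z h3 _)
      unfold cG
      have h6 : ‖z‖ ≤ 4 * d + 2 := by
        refine (Complex.norm_le_abs_re_add_abs_im z).trans ?_
        rw [abs_of_nonneg (by linarith : 0 ≤ z.re), abs_of_nonneg h3.le]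
        linarith
      have h7 : 0 < ‖z‖ := h3.trans_le (Complex.im_le_norm z)
      rw [abs_zero, mul_zero, add_zero]
      rw [div_le_div_iff₀ (by positivity) (by positivity)]
      have h8 : (4 * d + ‖z‖) ^ 2 ≤ (8 * d + 2) ^ 2 := pow_le_pow_left₀ (by positivity) (by linarith) 2
      nlinarith [sq_nonneg (8 * (d : ℝ) + 2)]
  · intro z _ _ h3 _
    rw [gz_eq hc z h3.ne']
    exact gg_bd hd 0 z h3
  · intro δ hδ
    have hC := Pool.Agent.TH794.QD.CH_nonneg d
    have hK : 0 < δ / (Pool.Agent.TH794.QD.CH d + 1) := by positivity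
    refine ⟨(δ / (Pool.Agent.TH794.QD.CH d + 1)) ^ 8, by positivity, ?_⟩
    intro z z' _ _ h3 _ _ _ h3' _ h
    rw [gz_eq hc z h3.ne', gz_eq hc z' h3'.ne']
    refine (gg_hol hd 0 z z' h3 h3').trans ?_
    have h5 : ‖z - z'‖ ^ (1 / 8 : ℝ) ≤ δ / (Pool.Agent.TH794.QD.CH d + 1) := by
      refine (Real.rpow_le_rpow (norm_nonneg _) h (by norm_num)).trans (le_of_eq ?_)
      rw [← Real.rpow_natCast, ← Real.rpow_mul hK.le]
      norm_num
    refine (mul_le_mul_of_nonneg_left h5 hC).trans ?_
    rw [mul_div_assoc', div_le_iff₀ (by positivity)]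
    nlinarith

end Pool.Agent.H383.Z987
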