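import Pool.Agent.H987.Z.StA

/-! Help-board subtask 393 (Z-A1): finite local free products, `theorem word : S_word`. -/

set_option autoImplicit false

namespace Pool.Agent.H383.Z987

open Pool.Agent.H987.Z

section
variable {C : Type} [Group C] {M : ℕ}

/-- the head of the list has colour `j` and the free letter is trivial -/
def Hd (u : C) (j : Fin M) : List (C × Fin M) → Prop
  | [] => False
  | (_, i) :: _ => u = 1 ∧ i = j

open Classical in
/-- the involution of colour `j` on pairs (letter, word) -/
noncomputable def sg (r : ℕ) (j : Fin M) : C × List (C × Fin M) → C × List (C × Fin M)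
  | (x, []) => if 0 < r then (1, [(x, j)]) else (x, [])
  | (x, (u, i) :: l) =>
    if x = 1 ∧ i = j then (if Hd u j l then (x, (u, i) :: l) else (u, l))
    else if l.length + 1 < r then (1, (x, j) :: (u, i) :: l) else (x, (u, i) :: l)

theorem sg_app (r : ℕ) (j : Fin M) (x : C) (l : List (C × Fin M)) (h : ¬ Hd x j l)
    (hl : l.length < r) : sg r j (x, l) = (1, (x, j) :: l) := by
  cases l with
  | nil => simp only [List.length_nil] at hl; simp [sg, hl]
  | cons a l =>
    obtain ⟨u, i⟩ := a
    simp only [Hd] at h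
    simp only [List.length_cons] at hl
    simp [sg, h, hl]

theorem sg_stop (r : ℕ) (j : Fin M) (x : C) (l : List (C × Fin M)) (h : ¬ Hd x j l)
    (hl : ¬ l.length < r) : sg r j (x, l) = (x, l) := by
  cases l with
  | nil => simp only [List.length_nil] at hl; simp [sg, hl]
  | cons a l =>
    obtain ⟨u, i⟩ := a
    simp only [Hd] at h
    simp only [List.length_cons] at hl
    simp [sg, h, hl]

theorem sg_drop (r : ℕ) (j : Fin M) (u : C) (l : List (C × Fin M)) (h : ¬ Hd u j l) :
    sg r j (1, (u, j) :: l) = (u, l) := by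
  simp [sg, h]

theorem sg_stuck (r : ℕ) (j : Fin M) (u : C) (l : List (C × Fin M)) (h : Hd u j l) :
    sg r j (1, (u, j) :: l) = (1, (u, j) :: l) := by
  simp [sg, h]

theorem Hd_cases {x : C} {j : Fin M} {l : List (C × Fin M)} (h : Hd x j l) :
    x = 1 ∧ ∃ u l', l = (u, j) :: l' := by
  cases l with
  | nil => exact h.elim
  | cons a l =>
    obtain ⟨u, i⟩ := a
    obtain ⟨h1, h2⟩ := h
    exact ⟨h1, u, l, by rw [h2]⟩

theorem sg_len (r : ℕ) (j : Fin M) (p : C × List (C × Fin M)) (hp : p.2.length ≤ r) :
    (sg r j p).2.length ≤ r := by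
  obtain ⟨x, l⟩ := p
  by_cases h : Hd x j l
  · obtain ⟨rfl, u, l', rfl⟩ := Hd_cases h
    by_cases h' : Hd u j l'
    · rw [sg_stuck r j u l' h']; exact hp
    · rw [sg_drop r j u l' h']
      simp only [List.length_cons] at hp
      show l'.length ≤ r
      omega
  · by_cases hl : l.length < r
    · rw [sg_app r j x l h hl]
      simp only [List.length_cons]; omega
    · rw [sg_stop r j x l h hl]; exact hp

theorem sg_inv (r : ℕ) (j : Fin M) (p : C × List (C × Fin M)) (hp : p.2.length ≤ r) :
    sg r j (sg r j p) = p := by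
  obtain ⟨x, l⟩ := p
  by_cases h : Hd x j l
  · obtain ⟨rfl, u, l', rfl⟩ := Hd_cases h
    by_cases h' : Hd u j l'
    · rw [sg_stuck r j u l' h', sg_stuck r j u l' h']
    · rw [sg_drop r j u l' h']
      simp only [List.length_cons] at hp
      rw [sg_app r j u l' h' (by omega)]
  · by_cases hl : l.length < r
    · rw [sg_app r j x l h hl, sg_drop r j x l h]
    · rw [sg_stop r j x l h hl, sg_stop r j x l h hl]

/-- the states: a letter and a word of length at most `r` -/
abbrev St (C : Type) (M r : ℕ) : Type := C × {l : List (C × Fin M) // l.length ≤ r}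

instance finSt [Finite C] (r : ℕ) : Finite (St C M r) := by
  have : Finite {l : List (C × Fin M) // l.length ≤ r} :=
    (List.finite_length_le (C × Fin M) r).to_subtype
  exact inferInstance

/-- the permutation of colour `j` -/
noncomputable def sP (r : ℕ) (j : Fin M) : Equiv.Perm (St C M r) where
  toFun p := ((sg r j (p.1, p.2.1)).1, ⟨(sg r j (p.1, p.2.1)).2, sg_len r j _ p.2.2⟩)
  invFun p := ((sg r j (p.1, p.2.1)).1, ⟨(sg r j (p.1, p.2.1)).2, sg_len r j _ p.2.2⟩)
  left_inv p := by
    have := sg_inv r j (p.1, p.2.1) p.2.2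
    have h1 := congrArg Prod.fst this
    have h2 := congrArg Prod.snd this
    exact Prod.ext h1 (Subtype.ext h2)
  right_inv p := by
    have := sg_inv r j (p.1, p.2.1) p.2.2
    have h1 := congrArg Prod.fst this
    have h2 := congrArg Prod.snd this
    exact Prod.ext h1 (Subtype.ext h2)

theorem sP_sq (r : ℕ) (j : Fin M) : sP (C := C) r j * sP r j = 1 := by
  ext1 p
  exact (sP r j).left_inv p

theorem sP_app (r : ℕ) (j : Fin M) (x : C) (l : List (C × Fin M)) (hl : l.length < r)
    (h : ¬ Hd x j l) :
    sP r j (x, ⟨l, hl.le⟩) = (1, ⟨(x, j) :: l, by simp only [List.length_cons]; omega⟩) := by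
  have := sg_app r j x l h hl
  have h1 := congrArg Prod.fst this
  have h2 := congrArg Prod.snd this
  exact Prod.ext h1 (Subtype.ext h2)

/-- the action of the letters -/
def rP (M r : ℕ) : C →* Equiv.Perm (St C M r) where
  toFun c := (Equiv.mulRight c⁻¹).prodCongr (Equiv.refl _)
  map_one' := by
    ext1 p
    refine Prod.ext ?_ rfl
    show p.1 * (1 : C)⁻¹ = p.1
    simp
  map_mul' a b := by
    ext1 p
    refine Prod.ext ?_ rfl
    show p.1 * (a * b)⁻¹ = p.1 * b⁻¹ * a⁻¹
    rw [mul_inv_rev, mul_assoc]

theorem redC_tail {a : C × Fin M} {l : List (C × Fin M)} (h : RedC (a :: l)) : RedC l := by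
  cases l with
  | nil => trivial
  | cons b l => exact h.2

theorem redC_Hd {u : C} {j : Fin M} {l : List (C × Fin M)} (h : RedC ((u, j) :: l)) :
    ¬ Hd u j l := by
  cases l with
  | nil => exact id
  | cons b l => 
    rintro ⟨h1, h2⟩
    exact h.1 h1 h2.symm

theorem key (r : ℕ) (l : List (C × Fin M)) (hl : l.length ≤ r) (h : RedC l) (x : C) :
    (evC (rP M r) (fun j => sP r j) l * rP M r x)⁻¹ (1, ⟨[], Nat.zero_le _⟩) = (x, ⟨l, hl⟩) := by
  induction l generalizing x with
  | nil =>
    rw [show evC (rP M r) (fun j => sP (C := C) r j) [] = 1 from rfl, one_mul, ← map_inv]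
    refine Prod.ext ?_ rfl
    show (1 : C) * (x⁻¹)⁻¹ = x
    simp
  | cons a l ih =>
    obtain ⟨u, j⟩ := a
    have hl' : l.length < r := by simp only [List.length_cons] at hl; omega
    have h1 := ih hl'.le (redC_tail h) u
    have e : (evC (rP M r) (fun j => sP r j) ((u, j) :: l) * rP M r x)⁻¹
        = rP M r x⁻¹ * (sP r j * (evC (rP M r) (fun j => sP r j) l * rP M r u)⁻¹) := by
      rw [show evC (rP M r) (fun j => sP (C := C) r j) ((u, j) :: l)
        = evC (rP M r) (fun j => sP r j) l * rP M r u * sP r j from rfl]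
      rw [mul_inv_rev, mul_inv_rev (_ * rP M r u), map_inv,
        inv_eq_of_mul_eq_one_left (sP_sq (C := C) r j)]
    rw [e, Equiv.Perm.mul_apply, Equiv.Perm.mul_apply, h1, sP_app r j u l hl' (redC_Hd h)]
    refine Prod.ext ?_ rfl
    show (1 : C) * (x⁻¹)⁻¹ = x
    simp

end

theorem word : S_word := by
  intro C _ _ M r
  refine ⟨Equiv.Perm (St C M r), inferInstance, inferInstance, rP M r, fun j => sP r j,
    fun j => sP_sq r j, ?_⟩
  intro l l' x x' h h' hl hl' e
  have h1 := key r l hl h x
  have h2 := key r l' hl' h' x'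
  rw [e, h2] at h1
  have := congrArg Prod.fst h1
  have h3 := congrArg (fun p : St C M r => p.2.1) h1
  exact ⟨h3.symm, this.symm⟩

end Pool.Agent.H383.Z987
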